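import Pool.Agent.Helper57.QZ.Stmts2
import Pool.Agent.Helper23.QZ.PR2

/-!
# MP_818aa8, row ROT: rotation invariance of the integral over the torus
-/

set_option autoImplicit false

namespace Pool.Agent.Helper57.QZ

open MeasureTheory Set Filter Topology

namespace ROTaux

open PR2aux

theorem per_one {y : ℕ} (F : (Pr y → ℝ) → ℝ)
    (hF : ∀ (φ : Pr y → ℝ) (p : Pr y), F (Function.update φ p (φ p + 2 * Real.pi)) = F φ)
    (φ : Pr y → ℝ) (p : Pr y) (k : ℤ) :
    F (Function.update φ p (φ p + k * (2 * Real.pi))) = F φ := by
  have step : ∀ k : ℤ, F (Function.update φ p (φ p + ((k + 1 : ℤ) : ℝ) * (2 * Real.pi))) =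
      F (Function.update φ p (φ p + k * (2 * Real.pi))) := by
    intro k
    have h := hF (Function.update φ p (φ p + k * (2 * Real.pi))) p
    rw [Function.update_self, Function.update_idem] at h
    rw [← h]
    congr 2
    push_cast
    ring
  induction k using Int.induction_on with
  | zero => simp
  | succ n ih =>
    rw [step]
    exact ih
  | pred n ih =>
    have h := step (-(n : ℤ) - 1)
    rw [sub_add_cancel] at h
    rw [← h]
    exact ih

theorem per_all {y : ℕ} (F : (Pr y → ℝ) → ℝ)
    (hF : ∀ (φ : Pr y → ℝ) (p : Pr y), F (Function.update φ p (φ p + 2 * Real.pi)) = F φ)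
    (φ : Pr y → ℝ) (k : Pr y → ℤ) : F (fun p => φ p + k p * (2 * Real.pi)) = F φ := by
  classical
  have h : ∀ s : Finset (Pr y),
      F (fun p => if p ∈ s then φ p + k p * (2 * Real.pi) else φ p) = F φ := by
    intro s
    induction s using Finset.induction_on with
    | empty => simp
    | insert a s ha ih =>
      have e1 : (fun p => if p ∈ insert a s then φ p + k p * (2 * Real.pi) else φ p) =
          Function.update (fun p => if p ∈ s then φ p + k p * (2 * Real.pi) else φ p) a
            ((fun p => if p ∈ s then φ p + k p * (2 * Real.pi) else φ p) a +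
              k a * (2 * Real.pi)) := by
        funext p
        by_cases hp : p = a
        · subst hp
          rw [Function.update_self]
          simp [ha]
        · rw [Function.update_of_ne hp]
          simp [hp]
      rw [e1, per_one F hF, ih]
  have := h Finset.univ
  simpa using this

end ROTaux

open PR2aux ROTaux in
theorem st_ROT : ST_ROT := by
  intro y α F hc hF
  have hm : MeasurePreserving (fun (φ : Pr y → ℝ) (p : Pr y) => rd (φ p + α)) (tor y) (tor y) :=
    measurePreserving_pi _ _ fun _ => mp α
  have h1 : ∀ φ : Pr y → ℝ, F (fun p => φ p + α) = F (fun p => rd (φ p + α)) := by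
    intro φ
    have h := per_all F hF (fun p => φ p + α) (fun p => -kk (φ p + α))
    rw [← h]
    congr 1
    funext p
    unfold rd
    push_cast
    ring
  have h2 : ∫ φ, F φ ∂(Measure.map (fun (φ : Pr y → ℝ) (p : Pr y) => rd (φ p + α)) (tor y)) =
      ∫ φ, F (fun p => rd (φ p + α)) ∂tor y :=
    integral_map hm.measurable.aemeasurable hc.aestronglyMeasurable
  rw [hm.map_eq] at h2
  rw [h2]
  exact integral_congr_ae (Filter.Eventually.of_forall h1)

end Pool.Agent.Helper57.QZ
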